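import Pool.Agent.Q250.SO.Fin

set_option autoImplicit false
open MeasureTheory Matrix Filter Topology
open scoped ENNReal NNReal

namespace Pool.Agent.Q250.SO

variable {d : ℕ} {R : Matrix (Fin d) (Fin d) ℤ} {B : Finset (Fin d → ℤ)} {μ : Measure (Fin d → ℝ)}

theorem card_DD (hI : ∀ n, Inj R B n) (n : ℕ) : (DD R B n).card = B.card ^ n := by
  induction n with
  | zero => simp [DD]
  | succ n ih => rw [DD, Finset.card_image_of_injOn (hI n), Finset.card_product, ih, pow_succ]

/-- a piece has measure at least its weight -/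
theorem piece_le (hdet : R.det ≠ 0) (h : SelfAff R B μ) (hI : ∀ n, Inj R B n) (n : ℕ) {v : Fin d → ℤ}
    (hv : v ∈ DD R B n) {X : Set (Fin d → ℝ)} (hX : IsCompact X) :
    ((B.card : ℝ≥0∞)⁻¹) ^ n * μ X ≤ μ (ps R n v '' X) := by
  have hm : MeasurableSet (ps R n v '' X) := (hX.image (continuous_ps R n v)).isClosed.measurableSet
  rw [h.decomp hdet n (fun m _ => hI m) hm]
  refine le_trans ?_ (Finset.single_le_sum
    (f := fun v => ((B.card : ℝ≥0∞)⁻¹) ^ n * μ (ps R n v ⁻¹' (ps R n _ '' X))) (fun _ _ => bot_le) hv)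
  have : μ X ≤ μ (ps R n v ⁻¹' (ps R n v '' X)) := measure_mono (Set.subset_preimage_image _ _)
  gcongr

theorem union_inter_le {ι : Type*} (B : Finset ι) (S : ι → Set (Fin d → ℝ))
    (hS : ∀ c ∈ B, MeasurableSet (S c)) {b b' : ι} (hb : b ∈ B) (hb' : b' ∈ B) (hne : b ≠ b') :
    μ (⋃ c ∈ B, S c) + μ (S b ∩ S b') ≤ ∑ c ∈ B, μ (S c) := by
  classical
  set U : Set (Fin d → ℝ) := ⋃ c ∈ B.erase b, S c with hU
  have hUm : MeasurableSet U := Finset.measurableSet_biUnion _ fun c hc => hS c (Finset.mem_of_mem_erase hc)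
  have h1 : (⋃ c ∈ B, S c) ⊆ S b ∪ U := by
    intro x hx
    simp only [Set.mem_iUnion] at hx
    obtain ⟨c, hc, hxc⟩ := hx
    by_cases hcb : c = b
    · subst hcb; exact Or.inl hxc
    · exact Or.inr (Set.mem_biUnion (Finset.mem_coe.2 (Finset.mem_erase.2 ⟨hcb, hc⟩)) hxc)
  have h2 : S b ∩ S b' ⊆ S b ∩ U := Set.inter_subset_inter_right _ fun x hx =>
    Set.mem_biUnion (Finset.mem_coe.2 (Finset.mem_erase.2 ⟨hne.symm, hb'⟩)) hx
  calc μ (⋃ c ∈ B, S c) + μ (S b ∩ S b') ≤ μ (S b ∪ U) + μ (S b ∩ U) :=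
        add_le_add (measure_mono h1) (measure_mono h2)
    _ = μ (S b) + μ U := measure_union_add_inter _ hUm
    _ ≤ μ (S b) + ∑ c ∈ B.erase b, μ (S c) := by
        gcongr
        exact measure_biUnion_finset_le _ _
    _ = ∑ c ∈ B, μ (S c) := Finset.add_sum_erase B (fun c => μ (S c)) hb

/-- the total measure of all pieces -/
noncomputable def tot (R : Matrix (Fin d) (Fin d) ℤ) (B : Finset (Fin d → ℤ)) (μ : Measure (Fin d → ℝ))
    (T : Set (Fin d → ℝ)) (n : ℕ) : ℝ≥0∞ := ∑ v ∈ DD R B n, μ (ps R n v '' T)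

theorem tot_lower (hdet : R.det ≠ 0) (h : SelfAff R B μ) [IsProbabilityMeasure μ] (hI : ∀ n, Inj R B n)
    {T : Set (Fin d → ℝ)} (hT : IsCompact T) (hTe : T = ⋃ b ∈ B, (fun x => (re R)⁻¹ *ᵥ (x + ct b)) '' T)
    {b b' : Fin d → ℤ} (hb : b ∈ B) (hb' : b' ∈ B) (hne : b ≠ b') (n : ℕ) :
    (n : ℝ≥0∞) * μ ((fun x => (re R)⁻¹ *ᵥ (x + ct b)) '' T ∩ (fun x => (re R)⁻¹ *ᵥ (x + ct b')) '' T) ≤
      tot R B μ T n := by
  have hcont : ∀ c : Fin d → ℤ, Continuous (fun x : Fin d → ℝ => (re R)⁻¹ *ᵥ (x + ct c)) := by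
    intro c; fun_prop
  set X := (fun x => (re R)⁻¹ *ᵥ (x + ct b)) '' T ∩ (fun x => (re R)⁻¹ *ᵥ (x + ct b')) '' T with hX
  have hXc : IsCompact X := (hT.image (hcont b)).inter (hT.image (hcont b'))
  induction n with
  | zero => simp
  | succ n ih =>
    have hstep : tot R B μ T n + μ X ≤ tot R B μ T (n + 1) := by
      unfold tot
      rw [DD, Finset.sum_image (hI n), Finset.sum_product]
      have h1 : ∀ v ∈ DD R B n, μ (ps R n v '' T) + ((B.card : ℝ≥0∞)⁻¹) ^ n * μ X ≤
          ∑ c ∈ B, μ (ps R (n + 1) (R *ᵥ v + c) '' T) := by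
        intro v hv
        set S : (Fin d → ℤ) → Set (Fin d → ℝ) := fun c => ps R (n + 1) (R *ᵥ v + c) '' T with hS
        have hSe : ∀ c, S c = ps R n v '' ((fun x => (re R)⁻¹ *ᵥ (x + ct c)) '' T) := by
          intro c
          rw [hS]
          simp only
          rw [Set.image_image]
          exact Set.image_congr' fun x => (ps_comp R hdet n v c x).symm
        have hSm : ∀ c ∈ B, MeasurableSet (S c) := fun c _ =>
          (hT.image (continuous_ps R _ _)).isClosed.measurableSet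
        have h2 := union_inter_le (μ := μ) B S hSm hb hb' hne
        refine le_trans (add_le_add ?_ ?_) h2
        · refine measure_mono ?_
          rintro _ ⟨x, hx, rfl⟩
          rw [hTe] at hx
          simp only [Set.mem_iUnion] at hx
          obtain ⟨c, hc, hxc⟩ := hx
          refine Set.mem_biUnion (Finset.mem_coe.2 hc) ?_
          rw [hSe]
          exact Set.mem_image_of_mem _ hxc
        · refine (piece_le hdet h hI n hv hXc).trans (measure_mono ?_)
          rw [hSe, hSe, hX]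
          exact Set.image_inter_subset _ _ _
      refine le_trans (le_of_eq ?_) (Finset.sum_le_sum h1)
      rw [Finset.sum_add_distrib, Finset.sum_const, card_DD hI n, nsmul_eq_mul, ← mul_assoc]
      push_cast
      rw [← mul_pow, h.mul_inv, one_pow, one_mul]
    refine le_trans ?_ hstep
    push_cast
    rw [add_mul, one_mul]
    gcongr

theorem tot_upper (hdet : R.det ≠ 0) [IsProbabilityMeasure μ] {T : Set (Fin d → ℝ)} (hT : IsCompact T) :
    ∃ C : ℕ, ∀ n, tot R B μ T n ≤ C := by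
  classical
  obtain ⟨ρ, hρ⟩ := hT.isBounded.exists_norm_le
  obtain ⟨K, hK⟩ := exists_nat_gt (2 * ρ)
  let box : Finset (Fin d → ℤ) := Fintype.piFinset fun _ => Finset.Icc (-(K : ℤ)) K
  refine ⟨box.card, fun n => ?_⟩
  have hm : ∀ v, MeasurableSet (ps R n v '' T) := fun v =>
    (hT.image (continuous_ps R _ _)).isClosed.measurableSet
  have h1 : tot R B μ T n = ∫⁻ x, ∑ v ∈ DD R B n, (ps R n v '' T).indicator 1 x ∂μ := by
    rw [lintegral_finsetSum _ (fun v _ => measurable_one.indicator (hm v))]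
    unfold tot
    refine Finset.sum_congr rfl fun v _ => ?_
    rw [lintegral_indicator_one (hm v)]
  rw [h1]
  have h2 : ∀ x, ∑ v ∈ DD R B n, (ps R n v '' T).indicator (1 : (Fin d → ℝ) → ℝ≥0∞) x ≤ box.card := by
    intro x
    have h3 : ∑ v ∈ DD R B n, (ps R n v '' T).indicator (1 : (Fin d → ℝ) → ℝ≥0∞) x =
        (((DD R B n).filter fun v => x ∈ ps R n v '' T).card : ℝ≥0∞) := by
      rw [Finset.card_filter]
      push_cast
      refine Finset.sum_congr rfl fun v _ => ?_
      by_cases hx : x ∈ ps R n v '' T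
      · rw [Set.indicator_of_mem hx, if_pos hx]; rfl
      · rw [Set.indicator_of_notMem hx, if_neg hx]
    rw [h3]
    have h4 : ((DD R B n).filter fun v => x ∈ ps R n v '' T).card ≤ box.card := by
      rcases Finset.eq_empty_or_nonempty ((DD R B n).filter fun v => x ∈ ps R n v '' T) with h0 | ⟨v0, hv0⟩
      · rw [h0]; simp
      refine Finset.card_le_card_of_injOn (fun v => v - v0) ?_ ?_
      · intro v hv
        rw [Finset.mem_coe, Finset.mem_filter] at hv
        rw [Finset.mem_filter] at hv0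
        obtain ⟨y, hy, hyx⟩ := hv.2
        obtain ⟨y0, hy0, hyx0⟩ := hv0.2
        have e1 : y + ct v = y0 + ct v0 := by
          rw [← mul_ps R hdet n v y, ← mul_ps R hdet n v0 y0, hyx, hyx0]
        have e2 : ct (v - v0) = y0 - y := by
          rw [ct_sub, sub_eq_sub_iff_add_eq_add, add_comm (ct v) y, e1]
        rw [Finset.mem_coe, Fintype.mem_piFinset]
        intro i
        have e3 : |((v - v0) i : ℝ)| ≤ 2 * ρ := by
          have := congrFun e2 i
          simp only [ct] at this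
          rw [this]
          have a1 := (norm_le_pi_norm (y0 - y) i)
          have a2 := norm_sub_le y0 y
          rw [Real.norm_eq_abs] at a1
          linarith [hρ y hy, hρ y0 hy0]
        rw [abs_le] at e3
        rw [Finset.mem_Icc]
        constructor
        · have : (-(K : ℝ)) < ((v - v0) i : ℝ) := by linarith
          exact_mod_cast this.le
        · have : ((v - v0) i : ℝ) < K := by linarith
          exact_mod_cast this.le
      · intro v _ w _ hvw
        exact sub_left_injective hvw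
    exact_mod_cast h4
  calc ∫⁻ x, ∑ v ∈ DD R B n, (ps R n v '' T).indicator 1 x ∂μ ≤ ∫⁻ _, (box.card : ℝ≥0∞) ∂μ :=
        lintegral_mono h2
    _ = box.card := by rw [lintegral_const, measure_univ, mul_one]

theorem no_overlap (hdet : R.det ≠ 0) (h : SelfAff R B μ) [IsProbabilityMeasure μ] (hI : ∀ n, Inj R B n)
    {T : Set (Fin d → ℝ)} (hT : IsCompact T) (hTe : T = ⋃ b ∈ B, (fun x => (re R)⁻¹ *ᵥ (x + ct b)) '' T)
    {b b' : Fin d → ℤ} (hb : b ∈ B) (hb' : b' ∈ B) (hne : b ≠ b') :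
    μ ((fun x => (re R)⁻¹ *ᵥ (x + ct b)) '' T ∩ (fun x => (re R)⁻¹ *ᵥ (x + ct b')) '' T) = 0 := by
  obtain ⟨C, hC⟩ := tot_upper (R := R) (B := B) (μ := μ) hdet hT
  set δ := μ ((fun x => (re R)⁻¹ *ᵥ (x + ct b)) '' T ∩ (fun x => (re R)⁻¹ *ᵥ (x + ct b')) '' T) with hδ
  by_contra h0
  obtain ⟨n, hn⟩ := ENNReal.exists_nat_mul_gt h0 (ENNReal.natCast_ne_top C)
  have h1 := (tot_lower hdet h hI hT hTe hb hb' hne n).trans (hC n)
  exact absurd hn (not_lt.2 h1)

end Pool.Agent.Q250.SO
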