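import Mathlib

set_option autoImplicit false
open Matrix Filter Topology
open scoped ENNReal NNReal

namespace Pool.Agent.Q250.SO

open scoped Matrix.Norms.Operator in
/-- powers of a complex matrix whose eigenvalues have modulus below one are eventually small -/
theorem pow_small {d : ℕ} (M : Matrix (Fin d) (Fin d) ℂ) (hM : ∀ z : ℂ, z ∈ spectrum ℂ M → ‖z‖ < 1)
    (ε : ℝ) (hε : 0 < ε) : ∃ m : ℕ, ‖M ^ m‖ < ε := by
  rcases Nat.eq_zero_or_pos d with hd | hd
  · subst hd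
    exact ⟨0, by rw [Subsingleton.elim (M ^ 0) 0, norm_zero]; exact hε⟩
  have : Nonempty (Fin d) := ⟨⟨0, hd⟩⟩
  have h1 : spectralRadius ℂ M < 1 := by
    have h := spectrum.spectralRadius_lt_of_forall_lt M (r := 1) (fun z hz => by
      have := hM z hz
      rw [← NNReal.coe_lt_coe]
      simpa using this)
    simpa using h
  have h2 := spectrum.pow_nnnorm_pow_one_div_tendsto_nhds_spectralRadius M
  obtain ⟨r, hr1, hr2⟩ := exists_between h1
  have h3 := h2.eventually_lt_const hr1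
  have hr0 : r ≠ ⊤ := (hr2.trans ENNReal.one_lt_top).ne
  have h4 : Tendsto (fun n : ℕ => r ^ n) atTop (𝓝 0) := ENNReal.tendsto_pow_atTop_nhds_zero_of_lt_one hr2
  have h5 := h4.eventually_lt_const (show (0 : ℝ≥0∞) < ENNReal.ofReal ε from by simpa using hε)
  obtain ⟨n, hn1, hn2, hn3⟩ := (h3.and (h5.and (eventually_gt_atTop 0))).exists
  refine ⟨n, ?_⟩
  have h6 : ((‖M ^ n‖₊ : ℝ≥0∞)) ≤ r ^ n := by
    have h7 : ((‖M ^ n‖₊ : ℝ≥0∞)) = (((‖M ^ n‖₊ : ℝ≥0∞)) ^ (1 / n : ℝ)) ^ (n : ℝ) := by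
      rw [← ENNReal.rpow_mul, one_div_mul_cancel (by positivity), ENNReal.rpow_one]
    rw [h7, ENNReal.rpow_natCast]
    exact pow_le_pow_left' hn1.le n
  have h8 : ((‖M ^ n‖₊ : ℝ≥0∞)) < ENNReal.ofReal ε := lt_of_le_of_lt h6 hn2
  rw [← enorm_eq_nnnorm, ← ofReal_norm] at h8
  exact (ENNReal.ofReal_lt_ofReal_iff hε).1 h8

theorem det_ne_zero {d : ℕ} (R : Matrix (Fin d) (Fin d) ℤ)
    (hR : ∀ z : ℂ, (R.map (Int.castRingHom ℂ)).charpoly.IsRoot z → 1 < ‖z‖) : R.det ≠ 0 := by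
  intro h
  have h1 : (R.map (Int.castRingHom ℂ)).det = 0 := by
    have := (Int.castRingHom ℂ).map_det R
    rw [h, map_zero] at this
    rw [← this.symm]
    rfl
  have h2 : (R.map (Int.castRingHom ℂ)).charpoly.IsRoot 0 := by
    rw [Polynomial.IsRoot.def, ← Polynomial.coeff_zero_eq_eval_zero]
    rw [Matrix.det_eq_sign_charpoly_coeff] at h1
    rcases mul_eq_zero.1 h1 with h3 | h3
    · exact absurd h3 (pow_ne_zero _ (by norm_num))
    · exact h3
  have := hR 0 h2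
  simp at this
  linarith

theorem spec_inv {d : ℕ} (N : Matrix (Fin d) (Fin d) ℂ) (hdet : N.det ≠ 0)
    (hN : ∀ z : ℂ, N.charpoly.IsRoot z → 1 < ‖z‖) (z : ℂ) (hz : z ∈ spectrum ℂ N⁻¹) : ‖z‖ < 1 := by
  have hu : IsUnit N := (Matrix.isUnit_iff_isUnit_det N).2 (isUnit_iff_ne_zero.2 hdet)
  have hz0 : z ≠ 0 := by
    rintro rfl
    rw [spectrum.zero_mem_iff] at hz
    exact hz ((Matrix.isUnit_nonsing_inv_iff).2 hu)
  have h1 : z⁻¹ ∈ spectrum ℂ N := by
    rw [spectrum.mem_iff] at hz ⊢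
    intro hc
    apply hz
    -- z - N⁻¹ = - z N⁻¹ (z⁻¹ - N)
    have h2 : (algebraMap ℂ (Matrix (Fin d) (Fin d) ℂ)) z - N⁻¹ =
        (algebraMap ℂ (Matrix (Fin d) (Fin d) ℂ)) (-z) * (N⁻¹ * ((algebraMap ℂ (Matrix (Fin d) (Fin d) ℂ)) z⁻¹ - N)) := by
      have h3 : N⁻¹ * N = 1 := Matrix.nonsing_inv_mul N ((Matrix.isUnit_iff_isUnit_det N).1 hu)
      rw [mul_sub, h3, mul_sub, mul_one]
      simp only [Algebra.algebraMap_eq_smul_one, smul_mul_assoc, one_mul, mul_smul_comm, mul_one, smul_smul]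
      rw [mul_neg, inv_mul_cancel₀ hz0]
      simp only [neg_smul, one_smul]
      abel
    rw [h2]
    refine IsUnit.mul ?_ (IsUnit.mul ((Matrix.isUnit_nonsing_inv_iff).2 hu) hc)
    exact (IsUnit.map _ (isUnit_iff_ne_zero.2 (neg_ne_zero.2 hz0)))
  rw [Matrix.mem_spectrum_iff_isRoot_charpoly] at h1
  have h4 := hN _ h1
  rw [norm_inv] at h4
  by_contra hc
  push Not at hc
  have := inv_le_one_of_one_le₀ hc
  linarith

/-- the inverse powers of an expanding integer matrix contract -/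
theorem exists_contr {d : ℕ} (R : Matrix (Fin d) (Fin d) ℤ)
    (hR : ∀ z : ℂ, (R.map (Int.castRingHom ℂ)).charpoly.IsRoot z → 1 < ‖z‖) :
    ∃ m : ℕ, ∀ x : Fin d → ℝ, ‖((R.map (Int.castRingHom ℝ))⁻¹ ^ m) *ᵥ x‖ ≤ ‖x‖ / 2 := by
  have hdet := det_ne_zero R hR
  have hdetC : (R.map (Int.castRingHom ℂ)).det ≠ 0 := by
    have := (Int.castRingHom ℂ).map_det R
    intro h
    apply hdet
    have h2 : (Int.castRingHom ℂ) R.det = 0 := by rw [this]; exact h
    simpa using h2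
  obtain ⟨m, hm⟩ := pow_small ((R.map (Int.castRingHom ℂ))⁻¹)
    (fun z hz => spec_inv _ hdetC hR z hz) (1 / 2) (by norm_num)
  refine ⟨m, fun x => ?_⟩
  -- compare the real and the complex matrices
  have h1 : ((R.map (Int.castRingHom ℝ))⁻¹ ^ m).map (algebraMap ℝ ℂ) = (R.map (Int.castRingHom ℂ))⁻¹ ^ m := by
    have h2 : ((R.map (Int.castRingHom ℝ))⁻¹).map (algebraMap ℝ ℂ) = (R.map (Int.castRingHom ℂ))⁻¹ := by
      have hu : IsUnit (R.map (Int.castRingHom ℝ)).det := by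
        have := (Int.castRingHom ℝ).map_det R
        rw [isUnit_iff_ne_zero]
        intro h
        apply hdet
        have h2 : (Int.castRingHom ℝ) R.det = 0 := by rw [this]; exact h
        simpa using h2
      symm
      apply Matrix.inv_eq_left_inv
      have h3 : (R.map (Int.castRingHom ℂ)) = ((R.map (Int.castRingHom ℝ)).map (algebraMap ℝ ℂ)) := by
        ext i j; simp
      rw [h3, ← Matrix.map_mul, Matrix.nonsing_inv_mul _ hu]
      ext i j
      by_cases hij : i = j <;> simp [Matrix.one_apply, hij]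
    rw [← h2]
    exact map_pow ((algebraMap ℝ ℂ).mapMatrix) _ m
  open scoped Matrix.Norms.Operator in
  have h2 : ‖((R.map (Int.castRingHom ℝ))⁻¹ ^ m).map (algebraMap ℝ ℂ) *ᵥ (fun i => (x i : ℂ))‖ ≤
      1 / 2 * ‖(fun i => (x i : ℂ))‖ := by
    rw [h1]
    refine (Matrix.linfty_opNorm_mulVec _ _).trans ?_
    exact mul_le_mul_of_nonneg_right hm.le (norm_nonneg _)
  have h3 : ‖(fun i => (x i : ℂ))‖ = ‖x‖ := by
    rw [Pi.norm_def, Pi.norm_def]
    congr 2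
    ext i
    simp
  have h4 : ‖((R.map (Int.castRingHom ℝ))⁻¹ ^ m).map (algebraMap ℝ ℂ) *ᵥ (fun i => (x i : ℂ))‖ =
      ‖((R.map (Int.castRingHom ℝ))⁻¹ ^ m) *ᵥ x‖ := by
    rw [Pi.norm_def, Pi.norm_def]
    congr 2
    ext i
    have : (((R.map (Int.castRingHom ℝ))⁻¹ ^ m).map (algebraMap ℝ ℂ) *ᵥ (fun i => (x i : ℂ))) i =
        (((((R.map (Int.castRingHom ℝ))⁻¹ ^ m) *ᵥ x) i : ℝ) : ℂ) := by
      simp only [Matrix.mulVec, dotProduct, Matrix.map_apply]
      push_cast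
      rfl
    rw [this]
    simp
  rw [h3, h4] at h2
  linarith

end Pool.Agent.Q250.SO
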