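import Pool.Agent.Q250.SO.Main

set_option autoImplicit false
open MeasureTheory Matrix Filter Topology
open scoped ENNReal NNReal

namespace Pool.Agent.Q250.SO

variable {d : ℕ} {R : Matrix (Fin d) (Fin d) ℤ} {B : Finset (Fin d → ℤ)} {μ : Measure (Fin d → ℝ)}

/-- the exponential -/
noncomputable def ex (l x : Fin d → ℝ) : ℂ :=
  Complex.exp (2 * Real.pi * Complex.I * ((∑ i, l i * x i : ℝ) : ℂ))

theorem ex_add (l x y : Fin d → ℝ) : ex l (x + y) = ex l x * ex l y := by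
  rw [ex, ex, ex, ← Complex.exp_add]
  congr 1
  have : (∑ i, l i * (x + y) i : ℝ) = (∑ i, l i * x i) + ∑ i, l i * y i := by
    rw [← Finset.sum_add_distrib]
    exact Finset.sum_congr rfl fun i _ => by rw [Pi.add_apply]; ring
  rw [this]
  push_cast
  ring

theorem norm_ex (l x : Fin d → ℝ) : ‖ex l x‖ = 1 := by
  rw [ex, show (2 * Real.pi * Complex.I * ((∑ i, l i * x i : ℝ) : ℂ)) =
    ((2 * Real.pi * (∑ i, l i * x i) : ℝ) : ℂ) * Complex.I by push_cast; ring]
  exact Complex.norm_exp_ofReal_mul_I _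

theorem continuous_ex (l : Fin d → ℝ) : Continuous (ex l) := by
  unfold ex
  fun_prop

/-- a spectral measure has no exact overlaps -/
theorem inj_all (hdet : R.det ≠ 0) (h : SelfAff R B μ) [IsProbabilityMeasure μ]
    (hb : ∃ ρ : ℝ, 0 ≤ ρ ∧ μ {x | ρ < ‖x‖} = 0) {Λ : Type*} (lam : Λ → (Fin d → ℝ)) (e : Λ → Lp ℂ 2 μ)
    (he : ∀ l, (e l : (Fin d → ℝ) → ℂ) =ᵐ[μ] ex (lam l)) (ho : Orthonormal ℂ e)
    (hs : (Submodule.span ℂ (Set.range e)).topologicalClosure = ⊤) (n : ℕ) : Inj R B n := by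
  classical
  induction n using Nat.strong_induction_on with
  | _ n ih =>
  intro p1 hp1 p2 hp2 hcol
  by_contra hne
  simp only at hcol
  rw [Finset.mem_coe] at hp1 hp2
  -- a generic functional
  obtain ⟨u, hu⟩ := exists_generic
    (((DD R B n ×ˢ DD R B n).image fun p => ct (R *ᵥ p.1) - ct (R *ᵥ p.2)) ∪
      ((B ×ˢ B).image fun p => ct p.1 - ct p.2) |>.filter (· ≠ 0)) (fun w hw => (Finset.mem_filter.1 hw).2)
  have hu1 : ∀ v ∈ DD R B n, ∀ v' ∈ DD R B n, v ≠ v' → u ⬝ᵥ ct (R *ᵥ v) ≠ u ⬝ᵥ ct (R *ᵥ v') := by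
    intro v hv v' hv' hvv heq
    refine hu (ct (R *ᵥ v) - ct (R *ᵥ v')) ?_ (by rw [dotProduct_sub, heq, sub_self])
    refine Finset.mem_filter.2 ⟨Finset.mem_union_left _ (Finset.mem_image.2
      ⟨(v, v'), Finset.mem_product.2 ⟨hv, hv'⟩, rfl⟩), fun h0 => hvv ?_⟩
    exact mulVec_inj R hdet (ct_inj (sub_eq_zero.1 h0))
  have hu2 : ∀ c ∈ B, ∀ c' ∈ B, c ≠ c' → u ⬝ᵥ ct c ≠ u ⬝ᵥ ct c' := by
    intro v hv v' hv' hvv heq
    refine hu (ct v - ct v') ?_ (by rw [dotProduct_sub, heq, sub_self])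
    refine Finset.mem_filter.2 ⟨Finset.mem_union_right _ (Finset.mem_image.2
      ⟨(v, v'), Finset.mem_product.2 ⟨hv, hv'⟩, rfl⟩), fun h0 => hvv ?_⟩
    exact ct_inj (sub_eq_zero.1 h0)
  -- the maximal pair
  rw [Finset.mem_product] at hp1 hp2
  obtain ⟨v0, hv0, hv0max⟩ := Finset.exists_max_image (DD R B n) (fun v => u ⬝ᵥ ct (R *ᵥ v)) ⟨_, hp1.1⟩
  obtain ⟨c0, hc0, hc0max⟩ := Finset.exists_max_image B (fun v => u ⬝ᵥ ct v) ⟨_, hp1.2⟩
  set I := DD R B n ×ˢ B with hI
  set f : (Fin d → ℤ) × (Fin d → ℤ) → ℝ := fun p => u ⬝ᵥ ct (R *ᵥ p.1 + p.2) with hf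
  have hf' : ∀ p, f p = u ⬝ᵥ ct (R *ᵥ p.1) + u ⬝ᵥ ct p.2 := fun p => by
    rw [hf]; simp only; rw [ct_add, dotProduct_add]
  have hmax : ∀ q ∈ I, q ≠ (v0, c0) → f q < f (v0, c0) := by
    rintro ⟨v, c⟩ hq hne
    rw [hI, Finset.mem_product] at hq
    rw [hf', hf']
    simp only
    by_cases hv : v = v0
    · subst hv
      have hc : c ≠ c0 := fun hc => hne (by rw [hc])
      have := lt_of_le_of_ne (hc0max c hq.2) (hu2 c hq.2 c0 hc0 hc)
      linarith
    · have h1 := lt_of_le_of_ne (hv0max v hq.1) (hu1 v hq.1 v0 hv0 hv)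
      have h2 := hc0max c hq.2
      linarith
  obtain ⟨g, hg0, hg⟩ := exists_gap I f (v0, c0) hmax
  obtain ⟨t, ht0, ht1⟩ := exists_level hb u g hg0
  set κ : ℝ≥0∞ := ((B.card : ℝ≥0∞)⁻¹) ^ (n + 1) with hκ
  have hκ0 : κ ≠ 0 := pow_ne_zero _ (ENNReal.inv_ne_zero.2 (ENNReal.natCast_ne_top _))
  have hκt : κ ≠ ⊤ := ENNReal.pow_ne_top (ENNReal.inv_ne_top.2 (by exact_mod_cast h.card_pos))
  set P : (Fin d → ℤ) × (Fin d → ℤ) → (Fin d → ℝ) → (Fin d → ℝ) :=
    fun p => ps R (n + 1) (R *ᵥ p.1 + p.2) with hP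
  have hPm : ∀ p, Measurable (P p) := fun p => measurable_ps _ _ _
  have hdec : ∀ {S : Set (Fin d → ℝ)}, MeasurableSet S → μ S = ∑ p ∈ I, κ * μ (P p ⁻¹' S) :=
    fun hS => h.decomp2 hdet n ih hS
  set E : Set (Fin d → ℝ) := {x | t + f (v0, c0) - g < u ⬝ᵥ ((re R) ^ (n + 1) *ᵥ x)} with hE
  have hEm : MeasurableSet E := by
    refine (isOpen_lt continuous_const ?_).measurableSet
    fun_prop
  have hEpre : ∀ p, P p ⁻¹' E = {x | t + f (v0, c0) - g - f p < u ⬝ᵥ x} := by
    intro p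
    ext x
    simp only [hE, hP, Set.mem_preimage, Set.mem_ofPred_eq, mul_ps R hdet, dotProduct_add]
    constructor <;> intro hx <;> simp only [hf] at hx ⊢ <;> linarith
  have hEother : ∀ p ∈ I, p ≠ (v0, c0) → μ (P p ⁻¹' E) = 0 := by
    intro p hp hpne
    rw [hEpre]
    refine measure_mono_null (fun x hx => ?_) ht0
    simp only [Set.mem_ofPred_eq] at hx ⊢
    linarith [hg p hp hpne]
  have hI0 : (v0, c0) ∈ I := Finset.mem_product.2 ⟨hv0, hc0⟩
  have hEs : ∀ {S : Set (Fin d → ℝ)}, MeasurableSet S →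
      μ (S ∩ E) = κ * μ (P (v0, c0) ⁻¹' S ∩ P (v0, c0) ⁻¹' E) := by
    intro S hS
    rw [hdec (hS.inter hEm), Finset.sum_eq_single (v0, c0)]
    · rw [Set.preimage_inter]
    · intro p hp hpne
      rw [measure_mono_null (Set.preimage_mono Set.inter_subset_right) (hEother p hp hpne), mul_zero]
    · intro hcontra
      exact absurd hI0 hcontra
  set E' := P (v0, c0) ⁻¹' E with hE'
  have hE'm : MeasurableSet E' := hPm _ hEm
  have hE'0 : μ E' ≠ 0 := by
    rw [hE', hEpre]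
    have : ∀ x : Fin d → ℝ, t + f (v0, c0) - g - f (v0, c0) < u ⬝ᵥ x ↔ t - g < u ⬝ᵥ x := by
      intro x
      constructor <;> intro hx <;> linarith
    simpa only [this] using ht1
  have hμE : μ E = κ * μ E' := by
    have := hEs MeasurableSet.univ
    simpa using this
  -- the restricted measures
  have hrestr : μ.restrict E = κ • (μ.restrict E').map (P (v0, c0)) := by
    refine Measure.ext fun S hS => ?_
    rw [Measure.restrict_apply hS, Measure.smul_apply, Measure.map_apply (hPm _) hS,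
      Measure.restrict_apply (hPm _ hS), smul_eq_mul, hEs hS]
  set ν : Measure (Fin d → ℝ) := κ • (μ.restrict E').map (P p1) with hν
  have hP12 : P p1 = P p2 := by
    rw [hP]
    simp only
    rw [hcol]
  have hνle : ν + ν ≤ μ := by
    refine Measure.le_iff.2 fun S hS => ?_
    rw [Measure.add_apply, hν, Measure.smul_apply, Measure.map_apply (hPm _) hS,
      Measure.restrict_apply (hPm _ hS), smul_eq_mul]
    rw [hdec hS]
    have hsub : ({p1, p2} : Finset _) ⊆ I := by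
      intro q hq
      rw [Finset.mem_insert, Finset.mem_singleton] at hq
      rcases hq with rfl | rfl
      · exact Finset.mem_product.2 hp1
      · exact Finset.mem_product.2 hp2
    refine le_trans ?_ (Finset.sum_le_sum_of_subset hsub)
    rw [Finset.sum_pair hne, ← hP12]
    have : μ (P p1 ⁻¹' S ∩ E') ≤ μ (P p1 ⁻¹' S) := measure_mono Set.inter_subset_left
    gcongr
  have hfinal := no_half μ e (fun l => ex (lam l)) he ho hs E hEm ν hνle ?_ ?_
  · rw [hμE] at hfinal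
    rcases mul_eq_zero.1 hfinal with h1 | h1
    · exact hκ0 h1
    · exact hE'0 h1
  · intro l
    have hae : ∀ (m : Measure (Fin d → ℝ)), AEStronglyMeasurable (ex (lam l)) m := fun m =>
      (continuous_ex _).aestronglyMeasurable
    rw [hrestr, hν, integral_smul_measure, integral_smul_measure, integral_map (hPm _).aemeasurable (hae _),
      integral_map (hPm _).aemeasurable (hae _)]
    have hshift : ∀ x, ex (lam l) (P p1 x) =
        ex (lam l) (P (v0, c0) x) * ex (lam l) (((re R)⁻¹ ^ (n + 1)) *ᵥ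
          (ct (R *ᵥ p1.1 + p1.2) - ct (R *ᵥ v0 + c0))) := by
      intro x
      rw [← ex_add]
      congr 1
      rw [hP]
      simp only [ps]
      rw [← Matrix.mulVec_add]
      congr 1
      abel
    simp only [hshift]
    rw [integral_mul_const, norm_smul, norm_smul, norm_mul, norm_ex, mul_one]
  · rw [hν, Measure.smul_apply, Measure.map_apply (hPm _) MeasurableSet.univ, Set.preimage_univ,
      Measure.restrict_apply MeasurableSet.univ, Set.univ_inter, smul_eq_mul, hμE]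

end Pool.Agent.Q250.SO
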