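import Mathlib

set_option autoImplicit false
open MeasureTheory Filter Topology
open scoped ENNReal NNReal ComplexConjugate

namespace Pool.Agent.Q250.SO

theorem parseval_eq {H : Type*} [NormedAddCommGroup H] [InnerProductSpace ℂ H] [CompleteSpace H]
    {Λ : Type*} (e : Λ → H) (ho : Orthonormal ℂ e)
    (hs : (Submodule.span ℂ (Set.range e)).topologicalClosure = ⊤) (f g : H)
    (h : ∀ l, ‖inner ℂ f (e l)‖ = ‖inner ℂ g (e l)‖) : ‖f‖ = ‖g‖ := by
  let b := HilbertBasis.mk ho hs.ge
  have hb : ∀ l, b l = e l := fun l => by simp [b]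
  have key : ∀ x : H, ∀ l, inner ℂ x (b l) * inner ℂ (b l) x = ((‖inner ℂ x (e l)‖ ^ 2 : ℝ) : ℂ) := by
    intro x l
    rw [hb, ← inner_conj_symm (e l) x, Complex.mul_conj, Complex.normSq_eq_norm_sq]
  have hf := b.hasSum_inner_mul_inner f f
  have hg := b.hasSum_inner_mul_inner g g
  simp only [key] at hf hg
  simp only [h] at hf
  have h1 := hf.unique hg
  rw [inner_self_eq_norm_sq_to_K, inner_self_eq_norm_sq_to_K] at h1
  have h2 : ‖f‖ ^ 2 = ‖g‖ ^ 2 := by exact_mod_cast h1
  exact (sq_eq_sq₀ (norm_nonneg _) (norm_nonneg _)).1 h2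

/-- A measure `ν ≤ μ / 2` cannot have, up to unimodular factors, the same coefficients as the restriction of
the spectral measure `μ` to a set of the same mass. -/
theorem no_half {X : Type*} [MeasurableSpace X] (μ : Measure X) [IsProbabilityMeasure μ] {Λ : Type*}
    (e : Λ → Lp ℂ 2 μ) (ef : Λ → X → ℂ) (he : ∀ l, (e l : X → ℂ) =ᵐ[μ] ef l) (ho : Orthonormal ℂ e)
    (hs : (Submodule.span ℂ (Set.range e)).topologicalClosure = ⊤) (E : Set X) (hE : MeasurableSet E)
    (ν : Measure X) (hν : ν + ν ≤ μ) (hint : ∀ l, ‖∫ x, ef l x ∂ν‖ = ‖∫ x in E, ef l x ∂μ‖)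
    (hmass : ν Set.univ = μ E) : μ E = 0 := by
  have hνμ : ν ≤ μ := le_trans (Measure.le_add_right le_rfl) hν
  have : IsFiniteMeasure ν := ⟨lt_of_le_of_lt (hνμ Set.univ) (measure_lt_top μ _)⟩
  have hac : ν ≪ μ := Measure.absolutelyContinuous_of_le hνμ
  -- the density is at most one half
  have hd : ∀ᵐ x ∂μ, (ν.rnDeriv μ x).toReal ≤ 1 / 2 := by
    have h1 := Measure.rnDeriv_le_one_of_le hν
    have h2 := Measure.rnDeriv_add' ν ν μ
    filter_upwards [h1, h2] with x hx1 hx2
    rw [hx2] at hx1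
    simp only [Pi.add_apply, Pi.one_apply] at hx1
    have h3 : (ν.rnDeriv μ x) ≠ ⊤ := by
      intro h
      rw [h] at hx1
      simp at hx1
    have h4 := ENNReal.toReal_mono ENNReal.one_ne_top hx1
    rw [ENNReal.toReal_add h3 h3, ENNReal.toReal_one] at h4
    linarith
  set hh : X → ℂ := fun x => (((ν.rnDeriv μ x).toReal : ℝ) : ℂ) with hhdef
  have hmeas : Measurable hh :=
    Complex.measurable_ofReal.comp (Measure.measurable_rnDeriv ν μ).ennreal_toReal
  have hmem : MemLp hh 2 μ := by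
    refine MemLp.of_bound hmeas.aestronglyMeasurable (1 / 2) ?_
    filter_upwards [hd] with x hx
    rw [hhdef]
    simp only [Complex.norm_real, Real.norm_eq_abs, abs_of_nonneg ENNReal.toReal_nonneg]
    exact hx
  set F : Lp ℂ 2 μ := hmem.toLp hh with hF
  set G : Lp ℂ 2 μ := indicatorConstLp 2 hE (measure_ne_top μ E) (1 : ℂ) with hG
  have hnorm : ‖F‖ = ‖G‖ := by
    refine parseval_eq e ho hs F G fun l => ?_
    have h1 : inner ℂ G (e l) = ∫ x in E, ef l x ∂μ := by
      rw [hG, L2.inner_indicatorConstLp_one]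
      exact setIntegral_congr_ae hE ((he l).mono fun x hx _ => hx)
    have h2 : inner ℂ F (e l) = ∫ x, ef l x ∂ν := by
      rw [L2.inner_def, ← integral_rnDeriv_smul hac]
      refine integral_congr_ae ?_
      filter_upwards [hmem.coeFn_toLp, he l] with x hx1 hx2
      rw [hF, hx1, hx2, hhdef]
      simp only [RCLike.inner_apply, Complex.conj_ofReal, Complex.real_smul]
      ring
    rw [h1, h2, hint l]
  have hGn : ‖G‖ ^ 2 = (μ E).toReal := by
    rw [hG, norm_indicatorConstLp (by norm_num) (by norm_num)]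
    simp only [norm_one, one_mul, ENNReal.toReal_ofNat]
    rw [← Real.rpow_natCast, ← Real.rpow_mul measureReal_nonneg]
    norm_num
    rfl
  have hFn : ‖F‖ ^ 2 ≤ (μ E).toReal / 2 := by
    have h1 : ((‖F‖ ^ 2 : ℝ) : ℂ) = inner ℂ F F := by
      rw [inner_self_eq_norm_sq_to_K]; norm_cast
    have h2 : inner ℂ F F = ((∫ x, (ν.rnDeriv μ x).toReal ^ 2 ∂μ : ℝ) : ℂ) := by
      rw [L2.inner_def, ← integral_complex_ofReal]
      refine integral_congr_ae ?_
      filter_upwards [hmem.coeFn_toLp] with x hx1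
      rw [hF, hx1, hhdef]
      simp only [RCLike.inner_apply, Complex.conj_ofReal]
      push_cast
      ring
    have h3 : ‖F‖ ^ 2 = ∫ x, (ν.rnDeriv μ x).toReal ^ 2 ∂μ := by
      rw [h2] at h1; exact_mod_cast h1
    have hi : Integrable (fun x => (ν.rnDeriv μ x).toReal) μ := Measure.integrable_toReal_rnDeriv
    have h4 : ∫ x, (ν.rnDeriv μ x).toReal ^ 2 ∂μ ≤ ∫ x, (1 / 2) * (ν.rnDeriv μ x).toReal ∂μ := by
      refine integral_mono_of_nonneg (Eventually.of_forall fun x => by positivity) (hi.const_mul _) ?_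
      filter_upwards [hd] with x hx
      have h5 : 0 ≤ (ν.rnDeriv μ x).toReal := ENNReal.toReal_nonneg
      nlinarith
    rw [integral_const_mul, Measure.integral_toReal_rnDeriv hac] at h4
    rw [h3]
    refine h4.trans (le_of_eq ?_)
    rw [measureReal_def, hmass]
    ring
  rw [hnorm, hGn] at hFn
  have h0 : (μ E).toReal = 0 := le_antisymm (by linarith) ENNReal.toReal_nonneg
  exact (ENNReal.toReal_eq_zero_iff _).1 h0 |>.resolve_right (measure_ne_top μ E)

end Pool.Agent.Q250.SO
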