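import Pool.Agent.Q250.SO.Exp
import Pool.Agent.Q250.SO.Pars

set_option autoImplicit false
open MeasureTheory Matrix Filter Topology
open scoped ENNReal NNReal

namespace Pool.Agent.Q250.SO

variable {d : ℕ}

/-- integer vectors as real vectors -/
def ct (v : Fin d → ℤ) : Fin d → ℝ := fun i => (v i : ℝ)

theorem ct_add (v w : Fin d → ℤ) : ct (v + w) = ct v + ct w := by
  ext i; simp [ct]

theorem ct_sub (v w : Fin d → ℤ) : ct (v - w) = ct v - ct w := by
  ext i; simp [ct]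

theorem ct_inj {v w : Fin d → ℤ} (h : ct v = ct w) : v = w := by
  ext i
  have := congrFun h i
  simpa [ct] using this

/-- the real matrix -/
abbrev re (R : Matrix (Fin d) (Fin d) ℤ) : Matrix (Fin d) (Fin d) ℝ := R.map (Int.castRingHom ℝ)

theorem ct_mulVec (R : Matrix (Fin d) (Fin d) ℤ) (v : Fin d → ℤ) : ct (R *ᵥ v) = re R *ᵥ ct v := by
  ext i
  simp [ct, Matrix.mulVec, dotProduct]

/-- the maps of level `n` -/
noncomputable def ps (R : Matrix (Fin d) (Fin d) ℤ) (n : ℕ) (v : Fin d → ℤ) (x : Fin d → ℝ) : Fin d → ℝ :=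
  ((re R)⁻¹ ^ n) *ᵥ (x + ct v)

/-- the digit sums of level `n` -/
def DD (R : Matrix (Fin d) (Fin d) ℤ) (B : Finset (Fin d → ℤ)) : ℕ → Finset (Fin d → ℤ)
  | 0 => {0}
  | n + 1 => (DD R B n ×ˢ B).image fun p => R *ᵥ p.1 + p.2

/-- no coincidence when one more digit is read -/
def Inj (R : Matrix (Fin d) (Fin d) ℤ) (B : Finset (Fin d → ℤ)) (n : ℕ) : Prop :=
  Set.InjOn (fun p : (Fin d → ℤ) × (Fin d → ℤ) => R *ᵥ p.1 + p.2) (DD R B n ×ˢ B : Finset _)

section basics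

variable (R : Matrix (Fin d) (Fin d) ℤ) (hdet : R.det ≠ 0)

include hdet

theorem isUnit_re : IsUnit (re R).det := by
  have := (Int.castRingHom ℝ).map_det R
  rw [isUnit_iff_ne_zero]
  intro h
  apply hdet
  have h2 : (Int.castRingHom ℝ) R.det = 0 := by rw [this]; exact h
  simpa using h2

theorem inv_mul : (re R)⁻¹ * re R = 1 := Matrix.nonsing_inv_mul _ (isUnit_re R hdet)

theorem pow_inv_mul (n : ℕ) : re R ^ n * (re R)⁻¹ ^ n = 1 := by
  have h : Commute (re R) (re R)⁻¹ := by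
    rw [commute_iff_eq, Matrix.nonsing_inv_mul _ (isUnit_re R hdet), Matrix.mul_nonsing_inv _ (isUnit_re R hdet)]
  rw [← h.mul_pow, Matrix.mul_nonsing_inv _ (isUnit_re R hdet), one_pow]

theorem inv_pow_mul (n : ℕ) : (re R)⁻¹ ^ n * re R ^ n = 1 := by
  have h : Commute (re R)⁻¹ (re R) := by
    rw [commute_iff_eq, Matrix.nonsing_inv_mul _ (isUnit_re R hdet), Matrix.mul_nonsing_inv _ (isUnit_re R hdet)]
  rw [← h.mul_pow, Matrix.nonsing_inv_mul _ (isUnit_re R hdet), one_pow]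

theorem mul_ps (n : ℕ) (v : Fin d → ℤ) (x : Fin d → ℝ) : re R ^ n *ᵥ ps R n v x = x + ct v := by
  rw [ps, Matrix.mulVec_mulVec, pow_inv_mul R hdet, Matrix.one_mulVec]

theorem ps_comp (n : ℕ) (v c : Fin d → ℤ) (x : Fin d → ℝ) :
    ps R n v ((re R)⁻¹ *ᵥ (x + ct c)) = ps R (n + 1) (R *ᵥ v + c) x := by
  rw [ps, ps, pow_succ, ← Matrix.mulVec_mulVec, ct_add, ct_mulVec]
  congr 1
  have h : x + (re R *ᵥ ct v + ct c) = (x + ct c) + re R *ᵥ ct v := by abel
  rw [h, Matrix.mulVec_add _ (x + ct c), Matrix.mulVec_mulVec, inv_mul R hdet, Matrix.one_mulVec]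

theorem mulVec_inj {v w : Fin d → ℤ} (h : R *ᵥ v = R *ᵥ w) : v = w := by
  apply ct_inj
  have h1 := congrArg ct h
  rw [ct_mulVec, ct_mulVec] at h1
  have h2 := congrArg (fun x => (re R)⁻¹ *ᵥ x) h1
  simp only [Matrix.mulVec_mulVec, inv_mul R hdet, Matrix.one_mulVec] at h2
  exact h2

end basics

theorem continuous_ps (R : Matrix (Fin d) (Fin d) ℤ) (n : ℕ) (v : Fin d → ℤ) : Continuous (ps R n v) := by
  unfold ps
  fun_prop

theorem measurable_ps (R : Matrix (Fin d) (Fin d) ℤ) (n : ℕ) (v : Fin d → ℤ) : Measurable (ps R n v) :=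
  (continuous_ps R n v).measurable

/-- A functional that does not vanish on finitely many nonzero vectors. -/
theorem exists_generic (W : Finset (Fin d → ℝ)) (hW : ∀ w ∈ W, w ≠ 0) :
    ∃ u : Fin d → ℝ, ∀ w ∈ W, u ⬝ᵥ w ≠ 0 := by
  classical
  let P : (Fin d → ℝ) → Polynomial ℝ := fun w => ∑ i, Polynomial.C (w i) * Polynomial.X ^ (i : ℕ)
  have hP : ∀ w, w ≠ 0 → P w ≠ 0 := by
    intro w hw h
    apply hw
    ext j
    have := congrArg (fun p => Polynomial.coeff p (j : ℕ)) h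
    simp only [P, Polynomial.finsetSum_coeff, Polynomial.coeff_C_mul, Polynomial.coeff_X_pow,
      Polynomial.coeff_zero] at this
    rw [Finset.sum_eq_single j] at this
    · simpa using this
    · intro i _ hij
      rw [if_neg (fun h => hij (Fin.ext h.symm)), mul_zero]
    · simp
  have hprod : ∏ w ∈ W, P w ≠ 0 := Finset.prod_ne_zero_iff.2 fun w hw => hP w (hW w hw)
  obtain ⟨t, ht⟩ : ∃ t : ℝ, (∏ w ∈ W, P w).eval t ≠ 0 := by
    by_contra hc
    push Not at hc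
    exact hprod (Polynomial.funext fun t => by rw [hc t, Polynomial.eval_zero])
  refine ⟨fun i => t ^ (i : ℕ), fun w hw h => ht ?_⟩
  rw [Polynomial.eval_prod]
  refine Finset.prod_eq_zero hw ?_
  simp only [P, Polynomial.eval_finsetSum, Polynomial.eval_mul, Polynomial.eval_C, Polynomial.eval_pow,
    Polynomial.eval_X]
  rw [← h, dotProduct]
  exact Finset.sum_congr rfl fun i _ => mul_comm _ _

theorem exists_gap {ι : Type*} (I : Finset ι) (f : ι → ℝ) (p : ι) (h : ∀ q ∈ I, q ≠ p → f q < f p) :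
    ∃ g : ℝ, 0 < g ∧ ∀ q ∈ I, q ≠ p → f q ≤ f p - g := by
  classical
  have h1 : ∀ᶠ g in 𝓝[>] (0 : ℝ), ∀ q ∈ I, q ≠ p → f q ≤ f p - g := by
    rw [Filter.eventually_all_finset]
    intro q hq
    by_cases hqp : q = p
    · exact Eventually.of_forall fun g h => absurd hqp h
    have h2 : 0 < f p - f q := by linarith [h q hq hqp]
    filter_upwards [Ioo_mem_nhdsGT h2] with g hg _
    linarith [hg.2]
  obtain ⟨g, hg, hg0⟩ := (h1.and self_mem_nhdsWithin).exists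
  exact ⟨g, hg0, hg⟩

section measure

variable (R : Matrix (Fin d) (Fin d) ℤ) (B : Finset (Fin d → ℤ)) (μ : Measure (Fin d → ℝ))

/-- the self-affinity, for sets -/
def SelfAff : Prop := ∀ S : Set (Fin d → ℝ), MeasurableSet S →
  μ S = ∑ c ∈ B, (B.card : ℝ≥0∞)⁻¹ * μ ((fun x => (re R)⁻¹ *ᵥ (x + ct c)) ⁻¹' S)

variable {R B μ}

theorem SelfAff.step (hdet : R.det ≠ 0) (h : SelfAff R B μ) (n : ℕ) (v : Fin d → ℤ) {S : Set (Fin d → ℝ)}
    (hS : MeasurableSet S) :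
    μ (ps R n v ⁻¹' S) = ∑ c ∈ B, (B.card : ℝ≥0∞)⁻¹ * μ (ps R (n + 1) (R *ᵥ v + c) ⁻¹' S) := by
  rw [h _ (measurable_ps R n v hS)]
  refine Finset.sum_congr rfl fun c _ => ?_
  congr 2
  ext x
  simp only [Set.mem_preimage, ps_comp R hdet]

theorem ps_zero (x : Fin d → ℝ) : ps R 0 0 x = x := by
  have : ct (0 : Fin d → ℤ) = 0 := by ext i; simp [ct]
  rw [ps, pow_zero, Matrix.one_mulVec, this, add_zero]

theorem SelfAff.decomp (hdet : R.det ≠ 0) (h : SelfAff R B μ) : ∀ n : ℕ, (∀ m < n, Inj R B m) →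
    ∀ {S : Set (Fin d → ℝ)}, MeasurableSet S →
    μ S = ∑ v ∈ DD R B n, ((B.card : ℝ≥0∞)⁻¹) ^ n * μ (ps R n v ⁻¹' S) := by
  intro n
  induction n with
  | zero =>
    intro _ S hS
    simp only [DD, Finset.sum_singleton, pow_zero, one_mul]
    congr 1
    ext x
    simp [ps_zero]
  | succ n ih =>
    intro hI S hS
    rw [ih (fun m hm => hI m (Nat.lt_succ_of_lt hm)) hS]
    rw [DD, Finset.sum_image (hI n (Nat.lt_succ_self n)), Finset.sum_product]
    refine Finset.sum_congr rfl fun v _ => ?_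
    rw [h.step hdet n v hS, Finset.mul_sum]
    refine Finset.sum_congr rfl fun c _ => ?_
    rw [pow_succ, mul_assoc]

/-- the decomposition with pairs as indices -/
theorem SelfAff.decomp2 (hdet : R.det ≠ 0) (h : SelfAff R B μ) (n : ℕ) (hI : ∀ m < n, Inj R B m)
    {S : Set (Fin d → ℝ)} (hS : MeasurableSet S) :
    μ S = ∑ p ∈ DD R B n ×ˢ B, ((B.card : ℝ≥0∞)⁻¹) ^ (n + 1) * μ (ps R (n + 1) (R *ᵥ p.1 + p.2) ⁻¹' S) := by
  rw [h.decomp hdet n hI hS, Finset.sum_product]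
  refine Finset.sum_congr rfl fun v _ => ?_
  rw [h.step hdet n v hS, Finset.mul_sum]
  refine Finset.sum_congr rfl fun c _ => ?_
  rw [pow_succ, mul_assoc]

theorem SelfAff.card_pos (h : SelfAff R B μ) [IsProbabilityMeasure μ] : B.card ≠ 0 := by
  intro h0
  rw [Finset.card_eq_zero] at h0
  have := h Set.univ MeasurableSet.univ
  rw [h0, Finset.sum_empty, measure_univ] at this
  exact one_ne_zero this

theorem SelfAff.mul_inv (h : SelfAff R B μ) [IsProbabilityMeasure μ] :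
    (B.card : ℝ≥0∞) * (B.card : ℝ≥0∞)⁻¹ = 1 :=
  ENNReal.mul_inv_cancel (by exact_mod_cast h.card_pos) (ENNReal.natCast_ne_top _)

/-- an upper bound for all the pieces is an upper bound -/
theorem SelfAff.le_of (hdet : R.det ≠ 0) (h : SelfAff R B μ) [IsProbabilityMeasure μ] (t : ℝ≥0∞)
    {S : Set (Fin d → ℝ)} (hS : MeasurableSet S) : ∀ n : ℕ,
    (∀ v ∈ DD R B n, μ (ps R n v ⁻¹' S) ≤ t) → μ S ≤ t := by
  intro n
  induction n with
  | zero =>
    intro hv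
    have := hv 0 (by simp [DD])
    have h2 : ps R 0 0 ⁻¹' S = S := by ext x; simp [ps_zero]
    rwa [h2] at this
  | succ n ih =>
    intro hv
    apply ih
    intro v hvD
    rw [h.step hdet n v hS]
    calc ∑ c ∈ B, (B.card : ℝ≥0∞)⁻¹ * μ (ps R (n + 1) (R *ᵥ v + c) ⁻¹' S)
        ≤ ∑ c ∈ B, (B.card : ℝ≥0∞)⁻¹ * t := by
          refine Finset.sum_le_sum fun c hc => ?_
          gcongr
          apply hv
          rw [DD]
          exact Finset.mem_image.2 ⟨(v, c), Finset.mem_product.2 ⟨hvD, hc⟩, rfl⟩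
      _ = t := by
          rw [Finset.sum_const, nsmul_eq_mul, ← mul_assoc, h.mul_inv, one_mul]

/-- the measure has bounded support -/
theorem SelfAff.bounded (hdet : R.det ≠ 0) (h : SelfAff R B μ) [IsProbabilityMeasure μ]
    (hc : ∃ m : ℕ, ∀ x : Fin d → ℝ, ‖((re R)⁻¹ ^ m) *ᵥ x‖ ≤ ‖x‖ / 2) :
    ∃ ρ : ℝ, 0 ≤ ρ ∧ μ {x | ρ < ‖x‖} = 0 := by
  obtain ⟨m, hm⟩ := hc
  obtain ⟨β, hβ0, hβ⟩ : ∃ β : ℝ, 0 ≤ β ∧ ∀ v ∈ DD R B m, ‖ct v‖ ≤ β := by
    refine ⟨∑ v ∈ DD R B m, ‖ct v‖, Finset.sum_nonneg fun v _ => norm_nonneg _, fun v hv => ?_⟩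
    exact Finset.single_le_sum (f := fun v : Fin d → ℤ => ‖ct v‖) (fun v _ => norm_nonneg _) hv
  have hmeas : ∀ r : ℝ, MeasurableSet {x : Fin d → ℝ | r < ‖x‖} := fun r =>
    (isOpen_lt continuous_const continuous_norm).measurableSet
  have hstep : ∀ r : ℝ, β + 1 ≤ r → μ {x | r < ‖x‖} ≤ μ {x : Fin d → ℝ | r + 1 < ‖x‖} := by
    intro r hr
    refine h.le_of hdet _ (hmeas r) m fun v hv => measure_mono fun x hx => ?_
    simp only [Set.mem_preimage, Set.mem_setOf_eq] at hx ⊢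
    have h1 : ‖ps R m v x‖ ≤ ‖x + ct v‖ / 2 := hm _
    have h2 : ‖x + ct v‖ ≤ ‖x‖ + β := (norm_add_le _ _).trans (by linarith [hβ v hv])
    linarith
  have hiter : ∀ k : ℕ, μ {x : Fin d → ℝ | β + 1 < ‖x‖} ≤ μ {x : Fin d → ℝ | β + 1 + k < ‖x‖} := by
    intro k
    induction k with
    | zero => simp
    | succ k ih =>
      refine ih.trans ((hstep _ (by linarith [k.cast_nonneg (α := ℝ)])).trans (le_of_eq ?_))
      congr 1
      ext x
      simp only [Set.mem_setOf_eq]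
      push_cast
      rw [add_assoc (β + 1) (k : ℝ) 1]
  refine ⟨β + 1, by linarith, ?_⟩
  have hlim : Tendsto (fun k : ℕ => μ {x : Fin d → ℝ | β + 1 + k < ‖x‖}) atTop
      (𝓝 (μ (⋂ k : ℕ, {x : Fin d → ℝ | β + 1 + k < ‖x‖}))) := by
    refine tendsto_measure_iInter_atTop (fun k => (hmeas _).nullMeasurableSet) ?_ ⟨0, measure_ne_top _ _⟩
    intro i j hij x hx
    simp only [Set.mem_setOf_eq] at hx ⊢
    have : (i : ℝ) ≤ j := by exact_mod_cast hij
    linarith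
  have hempty : (⋂ k : ℕ, {x : Fin d → ℝ | β + 1 + k < ‖x‖}) = ∅ := by
    ext x
    simp only [Set.mem_iInter, Set.mem_setOf_eq, Set.mem_empty_iff_false, iff_false, not_forall, not_lt]
    obtain ⟨k, hk⟩ := exists_nat_gt ‖x‖
    exact ⟨k, by linarith⟩
  rw [hempty, measure_empty] at hlim
  exact le_antisymm (ge_of_tendsto' hlim hiter) bot_le

theorem exists_level [IsProbabilityMeasure μ] (hb : ∃ ρ : ℝ, 0 ≤ ρ ∧ μ {x | ρ < ‖x‖} = 0) (u : Fin d → ℝ) (g : ℝ)
    (hg : 0 < g) : ∃ t : ℝ, μ {x | t < u ⬝ᵥ x} = 0 ∧ μ {x | t - g < u ⬝ᵥ x} ≠ 0 := by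
  obtain ⟨ρ, hρ0, hρ⟩ := hb
  set t0 : ℝ := (∑ i, |u i|) * ρ with ht0
  have h0 : μ {x | t0 < u ⬝ᵥ x} = 0 := by
    refine measure_mono_null (fun x hx => ?_) hρ
    simp only [Set.mem_setOf_eq] at hx ⊢
    by_contra hc
    push Not at hc
    have : u ⬝ᵥ x ≤ t0 := by
      rw [ht0, dotProduct, Finset.sum_mul]
      refine Finset.sum_le_sum fun i _ => ?_
      refine (le_abs_self _).trans ?_
      rw [abs_mul]
      refine mul_le_mul_of_nonneg_left ?_ (abs_nonneg _)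
      exact (norm_le_pi_norm x i).trans hc
    linarith
  have hex : ∃ k : ℕ, μ {x | t0 - k * g < u ⬝ᵥ x} ≠ 0 := by
    by_contra hc
    push Not at hc
    have h1 : μ (⋃ k : ℕ, {x | t0 - k * g < u ⬝ᵥ x}) = 0 := measure_iUnion_null hc
    have h2 : (⋃ k : ℕ, {x | t0 - k * g < u ⬝ᵥ x}) = Set.univ := by
      ext x
      simp only [Set.mem_iUnion, Set.mem_setOf_eq, Set.mem_univ, iff_true]
      obtain ⟨k, hk⟩ := exists_nat_gt ((t0 - u ⬝ᵥ x) / g)
      refine ⟨k, ?_⟩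
      rw [div_lt_iff₀ hg] at hk
      linarith
    rw [h2, measure_univ] at h1
    exact one_ne_zero h1
  classical
  have hk1 := Nat.find_spec hex
  have hk2 : ∀ m < Nat.find hex, μ {x | t0 - m * g < u ⬝ᵥ x} = 0 := fun m hm => by
    have := Nat.find_min hex hm
    push Not at this
    exact this
  set k := Nat.find hex with hk
  have hkpos : k ≠ 0 := by
    intro h
    rw [h] at hk1
    simp only [Nat.cast_zero, zero_mul, sub_zero] at hk1
    exact hk1 h0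
  obtain ⟨j, hj⟩ := Nat.exists_eq_succ_of_ne_zero hkpos
  refine ⟨t0 - j * g, hk2 j (by omega), ?_⟩
  rw [hj] at hk1
  have : ∀ x : Fin d → ℝ, t0 - ((j.succ : ℕ) : ℝ) * g < u ⬝ᵥ x ↔ t0 - j * g - g < u ⬝ᵥ x := by
    intro x
    have : t0 - ((j.succ : ℕ) : ℝ) * g = t0 - j * g - g := by push_cast; ring
    rw [this]
  simpa only [this] using hk1

end measure

end Pool.Agent.Q250.SO
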